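import Mathlib

/-!
# Project TB (MP_56afde): thin boxes in random Latin squares. Definitions.

`Gr n` is a bipartite graph on rows `Fin n` and columns `Fin n`, given by the columns adjacent to
each row. A Latin square of order `n` is a family of `n` pairwise disjoint permutations
`σ s : row ↦ column` (`s` runs over the symbols).
-/

set_option autoImplicit false

namespace Pool.Agent.Lead.TB

open Finset

/-- A bipartite graph between rows and columns: `G r` is the set of columns adjacent to `r`. -/
abbrev Gr (n : ℕ) := Fin n → Finset (Fin n)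

/-- All row degrees and all column degrees are `j`. -/
def Reg {n : ℕ} (j : ℕ) (G : Gr n) : Prop :=
  (∀ r, (G r).card = j) ∧ ∀ c, (univ.filter fun r => c ∈ G r).card = j

/-- Perfect matchings of `G`. -/
def pm {n : ℕ} (G : Gr n) : Finset (Equiv.Perm (Fin n)) :=
  univ.filter fun σ => ∀ r, σ r ∈ G r

/-- Families of pairwise disjoint perfect matchings of `G` indexed by `ι`. -/
def fac {n : ℕ} (ι : Type) [Fintype ι] [DecidableEq ι] (G : Gr n) :
    Finset (ι → Equiv.Perm (Fin n)) :=
  univ.filter fun σ => (∀ i r, σ i r ∈ G r) ∧ ∀ i j, i ≠ j → ∀ r, σ i r ≠ σ j r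

/-- The families in `fac ι G` whose members indexed by `A` avoid `F`. -/
def av {n : ℕ} (ι : Type) [Fintype ι] [DecidableEq ι] (A : Finset ι) (G F : Gr n) :
    Finset (ι → Equiv.Perm (Fin n)) :=
  (fac ι G).filter fun σ => ∀ i ∈ A, ∀ r, σ i r ∉ F r

/-- `(d!)^(1/d)`. -/
noncomputable def g (d : ℕ) : ℝ := (d.factorial : ℝ) ^ ((1 : ℝ) / d)

/-- The `m`-regular spanning subgraphs of `G`. -/
def half {n : ℕ} (m : ℕ) (G : Gr n) : Finset (Gr n) :=
  univ.filter fun K => (∀ r, K r ⊆ G r) ∧ (∀ r, (K r).card = m) ∧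
    ∀ c, (univ.filter fun r => c ∈ K r).card = m

/-- Latin squares of order `n`. -/
def ls (n : ℕ) : Finset (Fin n → Equiv.Perm (Fin n)) := fac (Fin n) fun _ => univ

/-- The number of cells of `T₁ × T₂` with a symbol in `S`. -/
def cnt {n : ℕ} (σ : Fin n → Equiv.Perm (Fin n)) (T₁ T₂ S : Finset (Fin n)) : ℕ :=
  ∑ s ∈ S, (T₁.filter fun r => σ s r ∈ T₂).card

/-- Sum of the losses of Bregman's bound against the lower bound. -/
noncomputable def loss (m : ℕ) : ℝ := (1 + Real.log m / 2) * (1 + Real.log m)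

end Pool.Agent.Lead.TB
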