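import Pool.Agent.Helper59.TB.Final

/-!
# Thin boxes in random Latin squares

For every order `n ≥ 1` the proportion of Latin squares of order `n` (2-dimensional permutations)
with an empty box of volume larger than `128 n² (1 + log² m)`, where `m` is the smallest side of
the box, is at most `exp (-2 n)`. In particular boxes with a side bounded by a constant `K` obey the
bound `O_K(n²)` of the question, with no logarithm.
-/

set_option autoImplicit false

namespace Pool.Agent.Lead.TB.ThinBoxes

open Pool.Agent.Helper41.Perm

theorem result (n : ℕ) (hn : 1 ≤ n) :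
    (Nat.card {A : (Fin 3 → Fin n) → Bool // IsPerm (d := 2) A ∧
        ∃ T : Fin 3 → Finset (Fin n), BoxEmpty (d := 2) A T ∧
          128 * (n : ℝ) ^ 2 *
              (1 + Real.log ((min (T 0).card (min (T 1).card (T 2).card) : ℕ) : ℝ) ^ 2) <
            ∏ i, ((T i).card : ℝ)} : ℝ) ≤
      Real.exp (-(2 * n)) * (Nat.card {A : (Fin 3 → Fin n) → Bool // IsPerm (d := 2) A} : ℝ) :=
  Pool.Agent.Lead.TB.final n hn

end Pool.Agent.Lead.TB.ThinBoxes
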